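import Pool.Agent.H376R3.PD.Defs

set_option autoImplicit false

universe u

namespace Pool.Agent.H973R3.PD

open Cardinal Topology Filter Pool.Agent.H376R3.PC Pool.Agent.H376R3.PD MeasureTheory

theorem continuous_circle_coe : Continuous (fun z : Circle => (z : ℂ)) := by fun_prop

/-- characters separate points -/
theorem sep {A : Type u} [AddCommGroup A] {a : A} (ha : a ≠ 0) : ∃ χ : A →+ T, χ a ≠ 0 := by
  obtain ⟨τ, h1, h2⟩ := exists_tau (addOrderOf a)
  let Φ : ℤ →+ A := (zmultiplesHom A) a
  let Ψ : ℤ →+ (Unit → T) := (zmultiplesHom (Unit → T)) (fun _ => τ)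
  obtain ⟨j, hj⟩ := exists_ext Φ Ψ (by
    intro x hx
    have hx' : x • a = 0 := hx
    obtain ⟨k, rfl⟩ := addOrderOf_dvd_iff_zsmul_eq_zero.2 hx'
    have : (((addOrderOf a : ℕ) : ℤ) * k) • τ = 0 := by
      rw [mul_comm, mul_smul, natCast_zsmul, h1, smul_zero]
    funext i
    exact this)
  refine ⟨(Pi.evalAddMonoidHom (fun _ => T) ()).comp j, fun h => ?_⟩
  have e1 : Φ 1 = a := one_zsmul a
  have e2 : Ψ 1 = fun _ => τ := one_zsmul _
  have h3 := hj 1
  rw [e1, e2] at h3
  have h4 : τ = 0 := by
    have : j a () = τ := by rw [h3]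
    rw [← this]; exact h
  have h5 := h2 1 (by rw [h4, smul_zero])
  have h6 : addOrderOf a = 1 := by
    have : (addOrderOf a) ∣ 1 := by exact_mod_cast h5
    exact Nat.dvd_one.1 this
  exact ha (AddMonoid.addOrderOf_eq_one_iff.1 h6)

theorem pd1 : TaskPD1.{u} := by
  intro A _ z hz
  letI : TopologicalSpace (Multiplicative A) := ⊥
  haveI : DiscreteTopology (Multiplicative A) := ⟨rfl⟩
  letI : MeasurableSpace (PontryaginDual (Multiplicative A)) := borel _
  haveI : BorelSpace (PontryaginDual (Multiplicative A)) := ⟨rfl⟩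
  let X := PontryaginDual (Multiplicative A)
  let μ : Measure X := Measure.haar
  have hpt : ∀ ψ : X, Tendsto (fun n => ((ψ (Multiplicative.ofAdd (z n)) : Circle) : ℂ)) atTop (𝓝 1) := by
    intro ψ
    let e := AddCircle.homeomorphCircle (T := (1:ℝ)) one_ne_zero
    have he : ∀ x : T, e x = AddCircle.toCircle x := AddCircle.homeomorphCircle_apply one_ne_zero
    let χ : A →+ T :=
      { toFun := fun a => e.symm (ψ (Multiplicative.ofAdd a))
        map_zero' := by
          apply e.injective
          rw [e.apply_symm_apply]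
          have : e 0 = 1 := (he 0).trans AddCircle.toCircle_zero
          rw [this]
          exact map_one ψ
        map_add' := by
          intro a b
          apply e.injective
          have h1 : ∀ x y, e (x + y) = e x * e y := fun x y => by
            rw [he, he, he]; exact AddCircle.toCircle_add x y
          rw [h1, e.apply_symm_apply, e.apply_symm_apply, e.apply_symm_apply]
          exact map_mul ψ _ _ }
    have h1 := hz χ
    have h2 : Tendsto (fun n => ((e (χ (z n)) : Circle) : ℂ)) atTop (𝓝 ((e 0 : Circle) : ℂ)) :=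
      (continuous_circle_coe.comp e.continuous).continuousAt.tendsto.comp h1
    have h3 : ((e 0 : Circle) : ℂ) = 1 := by
      have : e 0 = 1 := (he 0).trans AddCircle.toCircle_zero
      rw [this]; rfl
    rw [h3] at h2
    refine h2.congr fun n => ?_
    have : e (χ (z n)) = ψ (Multiplicative.ofAdd (z n)) := e.apply_symm_apply _
    rw [this]
  have hcont : ∀ a : A, Continuous fun ψ : X => ((ψ (Multiplicative.ofAdd a) : Circle) : ℂ) := by
    intro a
    have h1 : Continuous (ContinuousMonoidHom.toContinuousMap :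
        (Multiplicative A →ₜ* Circle) → C(Multiplicative A, Circle)) :=
      (ContinuousMonoidHom.isInducing_toContinuousMap (Multiplicative A) Circle).continuous
    exact continuous_circle_coe.comp ((continuous_eval_const (F := C(Multiplicative A, Circle)) (Multiplicative.ofAdd a)).comp h1)
  have hint : ∀ a : A, a ≠ 0 → ∫ ψ : X, ((ψ (Multiplicative.ofAdd a) : Circle) : ℂ) ∂μ = 0 := by
    intro a ha
    obtain ⟨χ, hχ⟩ := sep ha
    let ψ0 : X :=
      { toFun := fun x => AddCircle.toCircle (χ x.toAdd)
        map_one' := by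
          change AddCircle.toCircle (χ 0) = 1
          rw [map_zero]; exact AddCircle.toCircle_zero
        map_mul' := by
          intro x y
          change AddCircle.toCircle (χ (x.toAdd + y.toAdd)) = _
          rw [map_add]; exact AddCircle.toCircle_add _ _
        continuous_toFun := continuous_of_discreteTopology }
    have h1 := integral_mul_left_eq_self (μ := μ)
      (fun ψ : X => ((ψ (Multiplicative.ofAdd a) : Circle) : ℂ)) ψ0
    have h2 : ∀ ψ : X, (((ψ0 * ψ) (Multiplicative.ofAdd a) : Circle) : ℂ) =
        (AddCircle.toCircle (χ a) : ℂ) * ((ψ (Multiplicative.ofAdd a) : Circle) : ℂ) := fun ψ => rfl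
    simp only [h2] at h1
    rw [integral_const_mul] at h1
    have h3 : ((AddCircle.toCircle (χ a) : ℂ) - 1) *
        ∫ ψ : X, ((ψ (Multiplicative.ofAdd a) : Circle) : ℂ) ∂μ = 0 := by
      rw [sub_mul, h1, one_mul, sub_self]
    rcases mul_eq_zero.1 h3 with h4 | h4
    · exfalso
      apply hχ
      apply AddCircle.injective_toCircle (T := (1:ℝ)) one_ne_zero
      rw [AddCircle.toCircle_zero]
      apply Subtype.ext
      exact sub_eq_zero.1 h4
    · exact h4
  by_contra hne
  have hfr : ∃ᶠ n in atTop, z n ≠ 0 := by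
    rw [← not_eventually]; exact hne
  obtain ⟨φ, hφ, hφz⟩ := extraction_of_frequently_atTop hfr
  have hlim : Tendsto (fun k => ∫ ψ : X, ((ψ (Multiplicative.ofAdd (z (φ k))) : Circle) : ℂ) ∂μ) atTop
      (𝓝 (∫ _ψ : X, (1 : ℂ) ∂μ)) := by
    refine tendsto_integral_of_dominated_convergence (fun _ => (1 : ℝ)) ?_ ?_ ?_ ?_
    · intro k
      exact (hcont _).aestronglyMeasurable
    · exact integrable_const _
    · intro k
      exact Eventually.of_forall fun ψ => (Circle.norm_coe _).le
    · exact Eventually.of_forall fun ψ => (hpt ψ).comp hφ.tendsto_atTop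
  have hz0 : (fun k => ∫ ψ : X, ((ψ (Multiplicative.ofAdd (z (φ k))) : Circle) : ℂ) ∂μ) = fun _ => 0 := by
    funext k
    exact hint _ (hφz k)
  rw [hz0] at hlim
  have h0 := tendsto_nhds_unique hlim tendsto_const_nhds
  rw [integral_const] at h0
  have h1 : μ.real Set.univ = 0 := by simpa using h0
  have h2 : μ Set.univ = 0 := by
    rcases (measureReal_eq_zero_iff (μ := μ) (s := Set.univ)).1 h1 with h
    exact h
  exact (isOpen_univ.measure_pos μ ⟨1, trivial⟩).ne' h2

end Pool.Agent.H973R3.PD
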