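import Pool.Agent.H973R3.PD.PD1

set_option autoImplicit false

universe u

namespace Pool.Agent.H973R3.PD

open Cardinal Topology Filter Pool.Agent.H376R3.PC Pool.Agent.H376R3.PD

/-- an infinite set of naturals contains an infinite subset outside the ultrafilter -/
theorem thin (q : Ultrafilter ℕ) (hq : ∀ t : Set ℕ, t.Finite → t ∉ q) (S : Set ℕ) (hS : S.Infinite) :
    ∃ S1 ⊆ S, S1.Infinite ∧ S1 ∉ q := by
  let f := hS.natEmbedding
  have hf : Function.Injective (fun k => ((f k : ↥S) : ℕ)) := fun a b hab => f.injective (Subtype.ext hab)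
  let g0 : ℕ → ℕ := fun k => f (2 * k)
  let g1 : ℕ → ℕ := fun k => f (2 * k + 1)
  have h0 : Function.Injective g0 := fun a b hab => by
    have := hf hab; omega
  have h1 : Function.Injective g1 := fun a b hab => by
    have := hf hab; omega
  by_cases h : Set.range g0 ∈ q
  · refine ⟨Set.range g1, ?_, Set.infinite_range_of_injective h1, fun h' => ?_⟩
    · rintro _ ⟨k, rfl⟩
      exact (f (2 * k + 1)).2
    · have h2 := Filter.inter_mem (f := (q : Filter ℕ)) h h'
      refine hq _ ?_ h2
      have : Set.range g0 ∩ Set.range g1 = ∅ := by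
        ext x
        constructor
        · rintro ⟨⟨a, ha⟩, ⟨b, hb⟩⟩
          have := hf (ha.trans hb.symm)
          omega
        · intro hx; exact hx.elim
      rw [this]
      exact Set.finite_empty
  · refine ⟨Set.range g0, ?_, Set.infinite_range_of_injective h0, h⟩
    rintro _ ⟨k, rfl⟩
    exact (f (2 * k)).2

theorem pd2_of (hPD1 : TaskPD1.{u}) : TaskPD2.{u} := by
  intro B X Ξ V _ q s ψ hq hs hψ h hh
  classical
  let U : Set B := ⋃ n, ((h n).support : Set B)
  have hU : U.Countable := Set.countable_iUnion fun n => (h n).support.finite_toSet.countable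
  have star : ∀ π : B → (V →+ T), Constr q s π →
      Tendsto (fun n => (h n).sum fun w v => π w v) atTop (𝓝 0) := by
    intro π hπ
    obtain ⟨a, ha⟩ := hψ U hU π hπ
    refine (hh a).congr fun n => ?_
    exact Finset.sum_congr rfl fun w hw => by
      change ψ w a (h n w) = π w (h n w)
      rw [ha w (Set.mem_iUnion.2 ⟨n, hw⟩)]
  have hinj : ∀ ξ, Function.Injective (fun m : ℕ => s ξ (some m)) := by
    intro ξ a b hab
    exact Option.some_injective _ (hs _ _ _ _ hab).2
  let N : Set B := {w | w ∈ U ∧ ∀ ξ, w ≠ s ξ none}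
  have hnone : ∀ ξ, s ξ none ∉ N := fun ξ hξ => hξ.2 ξ rfl
  by_cases hN : N.Finite
  · apply hPD1 (B →₀ V) h
    intro χ
    let φ : B → (V →+ T) := fun w => χ.comp (Finsupp.singleAddHom w)
    let π : B → (V →+ T) := fun w => if w ∈ N then φ w else
      if hw : ∃ ξ o, w = s ξ o then φ (s hw.choose none) else 0
    have hπN : ∀ w ∈ N, π w = φ w := fun w hw => if_pos hw
    have hπs : ∀ ξ o, s ξ o ∉ N → π (s ξ o) = φ (s ξ none) := by
      intro ξ o hξ
      have h1 : ∃ ξ' o', s ξ o = s ξ' o' := ⟨ξ, o, rfl⟩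
      have h2 : π (s ξ o) = φ (s h1.choose none) := by
        have : π (s ξ o) = if hw : ∃ ξ' o', s ξ o = s ξ' o' then φ (s hw.choose none) else 0 :=
          if_neg hξ
        rw [this, dif_pos h1]
      obtain ⟨o', ho'⟩ := h1.choose_spec
      rw [h2, ← (hs _ _ _ _ ho').1]
    have hπU : ∀ w ∈ U, π w = φ w := by
      intro w hw
      by_cases hwN : w ∈ N
      · exact hπN w hwN
      · have h1 : ∃ ξ, w = s ξ none := by
          by_contra hcon
          push Not at hcon
          exact hwN ⟨hw, hcon⟩
        obtain ⟨ξ, rfl⟩ := h1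
        exact hπs ξ none hwN
    have hC : Constr q s π := by
      intro ξ v
      have hfin : {m : ℕ | s ξ (some m) ∈ N}.Finite := hN.preimage (hinj ξ).injOn
      have h1 : {m : ℕ | s ξ (some m) ∈ N}ᶜ ∈ q := Ultrafilter.compl_mem_iff_notMem.2 (hq _ hfin)
      apply tendsto_const_nhds.congr'
      filter_upwards [h1] with m hm
      rw [hπs ξ none (hnone ξ), hπs ξ (some m) hm]
    refine (star π hC).congr fun n => ?_
    have h2 : χ (h n) = (h n).sum fun w v => χ (Finsupp.single w v) := by
      conv_lhs => rw [← Finsupp.sum_single (h n)]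
      rw [map_finsuppSum]
    rw [h2]
    exact Finset.sum_congr rfl fun w hw => by
      change π w (h n w) = χ (Finsupp.single w (h n w))
      rw [hπU w (Set.mem_iUnion.2 ⟨n, hw⟩)]
      rfl
  · exfalso
    obtain ⟨N', hN'sub, hN'inf, hN'q⟩ : ∃ N' ⊆ N, N'.Infinite ∧ ∀ ξ, {m : ℕ | s ξ (some m) ∈ N'} ∉ q := by
      by_cases hex : ∃ ξ, {m : ℕ | s ξ (some m) ∈ N} ∈ q
      · obtain ⟨ξ0, h0⟩ := hex
        have hinf : {m : ℕ | s ξ0 (some m) ∈ N}.Infinite := fun hf => hq _ hf h0
        obtain ⟨S1, hS1, hS1i, hS1q⟩ := thin q hq _ hinf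
        refine ⟨(fun m => s ξ0 (some m)) '' S1, ?_, hS1i.image (hinj ξ0).injOn, fun ξ hξ => ?_⟩
        · rintro _ ⟨m, hm, rfl⟩
          exact hS1 hm
        · have hne : {m : ℕ | s ξ (some m) ∈ (fun m => s ξ0 (some m)) '' S1}.Nonempty := by
            rw [Set.nonempty_iff_ne_empty]
            intro he
            rw [he] at hξ
            exact hq _ Set.finite_empty hξ
          obtain ⟨m, m', _, hmm'⟩ := hne
          obtain rfl := (hs _ _ _ _ hmm').1
          apply hS1q
          have : {m : ℕ | s ξ0 (some m) ∈ (fun m => s ξ0 (some m)) '' S1} = S1 := by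
            ext x
            constructor
            · rintro ⟨y, hy, hxy⟩
              have := hinj ξ0 hxy
              rw [← this]; exact hy
            · intro hx; exact ⟨x, hx, rfl⟩
          rw [this] at hξ
          exact hξ
      · push Not at hex
        exact ⟨N, subset_rfl, hN, hex⟩
    have key := hPD1 (B →₀ V) (fun n => (h n).filter (· ∈ N')) (by
      intro χ
      let π : B → (V →+ T) := fun w => if w ∈ N' then χ.comp (Finsupp.singleAddHom w) else 0
      have hπ1 : ∀ w ∈ N', π w = χ.comp (Finsupp.singleAddHom w) := fun w hw => if_pos hw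
      have hπ0 : ∀ w, w ∉ N' → π w = 0 := fun w hw => if_neg hw
      have hC : Constr q s π := by
        intro ξ v
        have h1 : {m : ℕ | s ξ (some m) ∈ N'}ᶜ ∈ q := Ultrafilter.compl_mem_iff_notMem.2 (hN'q ξ)
        apply tendsto_const_nhds.congr'
        filter_upwards [h1] with m hm
        rw [hπ0 (s ξ none) (fun hx => hnone ξ (hN'sub hx)), hπ0 (s ξ (some m)) hm]
      refine (star π hC).congr fun n => ?_
      have h2 : χ ((h n).filter (· ∈ N')) =
          ((h n).filter (· ∈ N')).sum fun w v => χ (Finsupp.single w v) := by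
        conv_lhs => rw [← Finsupp.sum_single ((h n).filter (· ∈ N'))]
        rw [map_finsuppSum]
      rw [h2, Finsupp.sum, Finsupp.sum, Finsupp.support_filter, Finset.sum_filter]
      refine Finset.sum_congr rfl fun w hw => ?_
      by_cases hwN : w ∈ N'
      · rw [if_pos hwN, hπ1 w hwN, Finsupp.filter_apply_pos _ _ hwN]
        rfl
      · rw [if_neg hwN, hπ0 w hwN]
        rfl)
    obtain ⟨n0, hn0⟩ := eventually_atTop.1 key
    apply hN'inf
    have hsub : N' ⊆ ⋃ n ∈ Finset.range n0, ((h n).support : Set B) := by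
      intro w hw
      obtain ⟨n, hn⟩ := Set.mem_iUnion.1 (hN'sub hw).1
      have hn' : n < n0 := by
        by_contra hcon
        have h1 := hn0 n (not_lt.1 hcon)
        have h2 : (h n).filter (· ∈ N') w = 0 := by rw [h1]; rfl
        rw [Finsupp.filter_apply_pos _ _ hw] at h2
        exact (Finsupp.mem_support_iff.1 hn) h2
      exact Set.mem_biUnion (Finset.mem_coe.2 (Finset.mem_range.2 hn')) hn
    refine Set.Finite.subset ?_ hsub
    exact Set.Finite.biUnion (Finset.finite_toSet _) fun n _ => (h n).support.finite_toSet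

theorem pd2 : TaskPD2.{u} := pd2_of pd1

end Pool.Agent.H973R3.PD
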